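import Pool.Agent.N518.TG.Dio

/-!
# Coincidences of finite type invariants of homology spheres are as complicated as systems of
Diophantine equations

Definitions (`Pool.Agent.N518.TG`, see `Pool/Agent/N518/TG/Defs.lean`): `Surf g`, `Torelli g`: the fundamental group
and the Torelli group of the surface `Σ_{g,1}`; `Heegaard`: Heegaard splittings `⟨g, φ⟩`, the manifold `M(φ)`;
`Homeo`, `IsInvariant`, `FiniteType n v` (Goussarov-Habiro, Garoufalidis-Levine; any abelian group of values).
`Pool.Agent.N518.KT`: `cm a b = a b a⁻¹ b⁻¹`; a list `D` of pairs `(c, (e_1, …, e_n))`, `c ∈ ℤ`, with formal exponents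
`e_i`, each of which is `1` or one of `k` variables; `expt q`: substitution of the integers `q` for the variables;
`value D q`: the integer `∑ c e_1(q) ⋯ e_n(q)`. `Pool/Agent/N518/TG/Dio.lean`:
`nestS x (e_1, …, e_n) = [x_0^{e_1}, [x_1^{e_2}, ⋯ [x_{n-2}^{e_{n-1}}, x_{n-1}^{e_n}]]]` for a sequence `x`;
`prodS x D q`: the product of the `nestS x (e_1(q), …, e_n(q)) ^ c`; `total x D q`: the product of the
`prodS (x j) (D j) q`, for sequences `x 0, …, x (m - 1)` and lists `D 0, …, D (m - 1)`.
-/

set_option autoImplicit false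

namespace Pool.Agent.Results.MP_27a3bb_gt.DiophantineSystems

open Pool.Agent.N518.KT (value)
open Pool.Agent.N518.TG

/-- The homology spheres are not separated by finite type invariants of degree at most `n`, with values in any
abelian group. -/
def Same (n : ℕ) (M M' : Heegaard) : Prop :=
  ∀ (A : Type) [AddCommGroup A] (v : Heegaard → A), IsInvariant v → FiniteType n v → v M = v M'

/-- All iterated commutators of the lists have `n` entries. -/
def Entries (n : ℕ) {m k : ℕ} (D : Fin m → List (ℤ × List (Option (Fin k)))) : Prop :=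
  ∀ j, ∀ p ∈ D j, p.2.length = n

/-- The homology sphere `M(φ ∏_j prodS (x j) (D j) q)`. -/
def sphere {g m k : ℕ} (φ : MulAut (Surf g)) (x : Fin m → ℕ → MulAut (Surf g))
    (D : Fin m → List (ℤ × List (Option (Fin k)))) (q : Fin k → ℤ) : Heegaard := ⟨g, φ * total x D q⟩

/-- The homology sphere `M([x_0, [x_1, ⋯ [x_{n-2}, x_{n-1}]]])`. -/
def basic {g : ℕ} (n : ℕ) (x : ℕ → MulAut (Surf g)) : Heegaard := ⟨g, nestS x (List.replicate n 1)⟩

/-- The homology spheres `M_j` are independent in degree at most `n`: for no integers `a_j`, not all zero,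
`∑ a_j (v(M_j) - v(S³))` is zero for all finite type invariants of degree at most `n`. -/
def Independent (n g : ℕ) {m : ℕ} (M : Fin m → Heegaard) : Prop :=
  ∀ a : Fin m → ℤ, (∀ (A : Type) [AddCommGroup A] (v : Heegaard → A), IsInvariant v → FiniteType n v →
    ∑ j, a j • (v (M j) - v ⟨g, 1⟩) = 0) → a = 0

section
variable {g m k n : ℕ} {φ : MulAut (Surf g)} {x : Fin m → ℕ → MulAut (Surf g)}

theorem total_coe (hx : ∀ j i, x j i ∈ Torelli g) (D : Fin m → List (ℤ × List (Option (Fin k))))
    (q : Fin k → ℤ) :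
    ((total (fun j i => (⟨x j i, (hx j i).1⟩ : Mod g)) D q : Mod g) : MulAut (Surf g)) = total x D q := by
  rw [← Subgroup.coe_subtype, total_map]
  rfl

theorem prodS_mem {G : Type*} [Group G] (T : Subgroup G) {y : ℕ → G} (hy : ∀ i, y i ∈ T)
    (D : List (ℤ × List (Option (Fin k)))) (q : Fin k → ℤ) : prodS y D q ∈ T := by
  have h : T.subtype (prodS (fun i => (⟨y i, hy i⟩ : T)) D q) = prodS y D q := by
    rw [prodS_map]; rfl
  rw [← h]
  exact (prodS (fun i => (⟨y i, hy i⟩ : T)) D q).2

theorem total_mem {G : Type*} [Group G] (T : Subgroup G) {y : Fin m → ℕ → G} (hy : ∀ j i, y j i ∈ T)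
    (D : Fin m → List (ℤ × List (Option (Fin k)))) (q : Fin k → ℤ) : total y D q ∈ T := by
  unfold total
  refine T.list_prod_mem fun z hz => ?_
  obtain ⟨j, rfl⟩ := (List.mem_ofFn' _ _).1 hz
  exact prodS_mem T (hy j) _ _

theorem fn_sphere {A : Type} [AddCommGroup A] (v : Heegaard → A) (hφ : φ ∈ Torelli g)
    (hx : ∀ j i, x j i ∈ Torelli g) (D : Fin m → List (ℤ × List (Option (Fin k)))) (q : Fin k → ℤ) :
    fn g v ((⟨φ, hφ.1⟩ : Mod g) * total (fun j i => (⟨x j i, (hx j i).1⟩ : Mod g)) D q) =
      v (sphere φ x D q) := by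
  unfold fn sphere
  have h1 : (⟨φ, hφ.1⟩ : Mod g) * total (fun j i => (⟨x j i, (hx j i).1⟩ : Mod g)) D q ∈ TT g := 
    (TT g).mul_mem hφ (total_mem (TT g) (fun j i => hx j i) D q)
  rw [if_pos h1, Subgroup.coe_mul, total_coe hx]

theorem fn_of {A : Type} [AddCommGroup A] (v : Heegaard → A) (hφ : φ ∈ Torelli g) :
    fn g v (⟨φ, hφ.1⟩ : Mod g) = v ⟨g, φ⟩ := by
  unfold fn
  rw [if_pos (show (⟨φ, hφ.1⟩ : Mod g) ∈ TT g from hφ)]

theorem low (hφ : φ ∈ Torelli g) (hx : ∀ j i, x j i ∈ Torelli g)
    {D : Fin m → List (ℤ × List (Option (Fin k)))} (hD : Entries (n + 1) D) (q : Fin k → ℤ) {d : ℕ}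
    (hd : d < n + 1) : Same d (sphere φ x D q) ⟨g, φ⟩ := by
  intro A _ v _ hv
  rw [← fn_sphere v hφ hx, ← fn_of v hφ]
  exact val_lt hv hd (lead_total (filt g) (fun j i => lead_of (hx j i)) D hD q) _

/-- the value of the leading term of the sequence -/
noncomputable def lt {A : Type} [AddCommGroup A] (n : ℕ) (v : Heegaard → A) {y : ℕ → MulAut (Surf g)}
    (hy : ∀ i, y i ∈ Torelli g) : A :=
  lin (fn g v) (ads (fun i => FreeAbelianGroup.of (⟨y i, (hy i).1⟩ : Mod g) - 1) n)

theorem one_mem' : (1 : MulAut (Surf g)) ∈ Torelli g := (Torelli g).one_mem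

theorem top (hφ : φ ∈ Torelli g) (hx : ∀ j i, x j i ∈ Torelli g)
    {D : Fin m → List (ℤ × List (Option (Fin k)))} (hD : Entries (n + 1) D) (q : Fin k → ℤ)
    {A : Type} [AddCommGroup A] {v : Heegaard → A} (hv : FiniteType (n + 1) v) :
    v (sphere φ x D q) = v ⟨g, φ⟩ + ∑ j, value (D j) q • lt n v (hx j) := by
  rw [← fn_sphere v hφ hx, ← fn_of v hφ]
  rw [val_eq hv (lead_total (filt g) (fun j i => lead_of (hx j i)) D hD q) hφ, map_sum]
  congr 1
  refine Finset.sum_congr rfl fun j _ => ?_
  rw [map_zsmul]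
  rfl

theorem sphere_one {y : ℕ → MulAut (Surf g)} (n : ℕ) :
    sphere (m := 1) (k := 0) 1 (fun _ => y) (fun _ => [(1, List.replicate (n + 1) none)]) Fin.elim0 =
      basic (n + 1) y := by
  unfold sphere basic total prodS
  simp [Pool.Agent.N518.KT.expt]

theorem lt_eq {y : ℕ → MulAut (Surf g)} (hy : ∀ i, y i ∈ Torelli g) {A : Type} [AddCommGroup A]
    {v : Heegaard → A} (hv : FiniteType (n + 1) v) : lt n v hy = v (basic (n + 1) y) - v ⟨g, 1⟩ := by
  have h := top (n := n) (m := 1) (k := 0) (x := fun _ => y) one_mem' (fun _ => hy)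
    (D := fun _ => [(1, List.replicate (n + 1) none)]) (by
      intro j p hp
      rw [List.mem_singleton] at hp
      rw [hp, List.length_replicate]) Fin.elim0 hv
  rw [sphere_one] at h
  rw [h]
  simp [value, Pool.Agent.N518.KT.expt]

end

/-- Let `n ≥ 1`, let `φ` and the elements `x j i` of the sequences `x 0, …, x (m - 1)` be in the Torelli group of
genus `g`.

1. **All polynomials**: any integral polynomials `P_j`, `j < m`, of degree at most `n`, in any number `k` of
   variables are the functions `value (D j)` of lists `D j` with `n` entries in each iterated commutator.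
2. **Low degrees**: for all such lists and all `q ∈ ℤ^k` the invariants of degree less than `n` have on the
   homology sphere `sphere φ x D q` the same value as on `M(φ)`.
3. **Degree `n`**: for all finite type invariants `v` of degree at most `n`
   `v(sphere φ x D q) = v(M(φ)) + ∑_j value (D j) q • (v(M(c_j)) - v(S³))`, `c_j = [x_{j,0}, [x_{j,1}, ⋯ x_{j,n-1}]]`.
4. **Coincidences**: if the `M(c_j)` are independent in degree at most `n`, then `sphere φ x D q` and
   `sphere φ x D' q'` are not separated by invariants of degree at most `n` if and only if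
   `value (D j) q = value (D' j) q'` for all `j`: any given system of `m` Diophantine equations of degree at most `n`.
5. **Dichotomy** for one sequence (`m = 1`): either no rational valued invariant of degree at most `n` separates
   any two of the homology spheres of all these families, or the independence in 4 holds. -/
theorem result (n : ℕ) (hn : 1 ≤ n) (g m : ℕ) (φ : MulAut (Surf g)) (hφ : φ ∈ Torelli g)
    (x : Fin m → ℕ → MulAut (Surf g)) (hx : ∀ j i, x j i ∈ Torelli g) :
    (∀ (k : ℕ) (P : Fin m → MvPolynomial (Fin k) ℤ), (∀ j, (P j).totalDegree ≤ n) →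
      ∃ D : Fin m → List (ℤ × List (Option (Fin k))), Entries n D ∧
        ∀ j q, value (D j) q = MvPolynomial.eval q (P j)) ∧
    (∀ (k : ℕ) (D : Fin m → List (ℤ × List (Option (Fin k)))), Entries n D → ∀ (q : Fin k → ℤ) (d : ℕ),
      d < n → Same d (sphere φ x D q) ⟨g, φ⟩) ∧
    (∀ (k : ℕ) (D : Fin m → List (ℤ × List (Option (Fin k)))), Entries n D → ∀ (q : Fin k → ℤ)
      (A : Type) [AddCommGroup A] (v : Heegaard → A), IsInvariant v → FiniteType n v →
        v (sphere φ x D q) = v ⟨g, φ⟩ + ∑ j, value (D j) q • (v (basic n (x j)) - v ⟨g, 1⟩)) ∧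
    (Independent n g (fun j => basic n (x j)) →
      ∀ (k k' : ℕ) (D : Fin m → List (ℤ × List (Option (Fin k)))) (D' : Fin m → List (ℤ × List (Option (Fin k')))),
        Entries n D → Entries n D' → ∀ (q : Fin k → ℤ) (q' : Fin k' → ℤ),
          Same n (sphere φ x D q) (sphere φ x D' q') ↔ ∀ j, value (D j) q = value (D' j) q') ∧
    (m = 1 → (∃ (k k' : ℕ) (D : Fin m → List (ℤ × List (Option (Fin k))))
        (D' : Fin m → List (ℤ × List (Option (Fin k')))) (q : Fin k → ℤ) (q' : Fin k' → ℤ) (v : Heegaard → ℚ),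
        Entries n D ∧ Entries n D' ∧ IsInvariant v ∧ FiniteType n v ∧
          v (sphere φ x D q) ≠ v (sphere φ x D' q')) →
      Independent n g (fun j => basic n (x j))) := by
  obtain ⟨n, rfl⟩ : ∃ i, n = i + 1 := ⟨n - 1, by omega⟩
  have h3 : ∀ (k : ℕ) (D : Fin m → List (ℤ × List (Option (Fin k)))), Entries (n + 1) D → ∀ (q : Fin k → ℤ)
      (A : Type) [AddCommGroup A] (v : Heegaard → A), FiniteType (n + 1) v →
        v (sphere φ x D q) = v ⟨g, φ⟩ + ∑ j, value (D j) q • (v (basic (n + 1) (x j)) - v ⟨g, 1⟩) := by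
    intro k D hD q A _ v hv
    rw [top hφ hx hD q hv]
    congr 1
    exact Finset.sum_congr rfl fun j _ => by rw [lt_eq (hx j) hv]
  refine ⟨?_, fun k D hD q d hd => low hφ hx hD q hd, fun k D hD q A _ v _ hv => h3 k D hD q A v hv, ?_, ?_⟩
  · intro k P hP
    choose D hD hD' using fun j => Pool.Agent.N518.KT.exists_list (n + 1) (P j) (hP j)
    exact ⟨D, hD, hD'⟩
  · intro hi k k' D D' hD hD' q q'
    constructor
    · intro h
      have h1 := hi (fun j => value (D j) q - value (D' j) q') fun A _ v hv1 hv2 => by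
        have h2 := h A v hv1 hv2
        rw [h3 k D hD q A v hv2, h3 k' D' hD' q' A v hv2] at h2
        have h4 := add_left_cancel h2
        simp only [sub_smul]
        rw [Finset.sum_sub_distrib, h4, sub_self]
      intro j
      exact sub_eq_zero.1 (congrFun h1 j)
    · intro h A _ v _ hv
      rw [h3 k D hD q A v hv, h3 k' D' hD' q' A v hv]
      congr 1
      exact Finset.sum_congr rfl fun j _ => by rw [h j]
  · rintro hm ⟨k, k', D, D', q, q', v, hD, hD', hv1, hv2, hne⟩ a ha
    subst hm
    rw [h3 k D hD q ℚ v hv2, h3 k' D' hD' q' ℚ v hv2] at hne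
    have ht : v (basic (n + 1) (x 0)) - v ⟨g, 1⟩ ≠ 0 := by
      intro h0
      apply hne
      simp [h0]
    have h1 := ha ℚ v hv1 hv2
    rw [Fin.sum_univ_one, zsmul_eq_mul] at h1
    rcases mul_eq_zero.1 h1 with h2 | h2
    · funext j
      rw [Subsingleton.elim j 0]
      exact_mod_cast h2
    · exact absurd h2 ht

end Pool.Agent.Results.MP_27a3bb_gt.DiophantineSystems
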