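import Pool.Agent.N518.HQ.Asm

/-!
# Homology spheres with prescribed perfect quotients which are invisible for the LMO invariant in low degrees

Library `Pool.Agent.N518.TG` (`TG/Defs.lean`): `Surf g` is the fundamental group of the surface `Σ_{g,1}` (free on
`x_i = xx i`, `y_i = yy i`), `Mod g` its mapping class group, `Torelli g` the Torelli group, `Heegaard` the type of
the pairs `P = ⟨g, φ⟩`, which stand for the closed 3-manifold `M(φ)`, the union of the handlebody in which the `x_i`
bound discs and of the one in which the `φ(y_i)` bound discs, `Homeo` the relation generated by the moves of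
Heegaard splittings (so the manifolds are homeomorphic), `IsInvariant v`, `FiniteType n v` the invariants of
integral homology spheres of finite type, of degree at most `n`, with values in any abelian group.

**Construction.** `Q` is generated by `d_1, …, d_k` and is perfect. We add `2 k` handles `A_1, …, A_k, C_1, …, C_k`. Let `ρ` be
the homomorphism of the surface group to `Q` with `y_{A_i} ↦ d_i` and all other generators `↦ 1`. For all
`κ ∈ Q ^ k` there is a mapping class `w`, a product of pushing maps, with `ρ w = ρ` except that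
`ρ w (x_{C_i}) = κ_i⁻¹`. As `Q ^ k` is perfect and the pushing maps generate a group whose commutator
subgroup is contained in the Torelli group, `w` can be chosen in every term of the lower central series of
the Torelli group. With a mapping class `a` which links `A_i` and `C_i`, `M = M(φ a w a⁻¹)`, `κ = d`.
-/

set_option autoImplicit false

namespace Pool.Agent.Results.MP_27a3bb_gt.PerfectQuotients

open Pool.Agent.N518.TG Pool.Agent.N518.HQ Function

/-- The homology sphere `M` is obtained from the homology sphere `P` by cutting it along a Heegaard surface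
and regluing by an element of the term number `n + 1` of the lower central series of the Torelli group (this is
`Y_{n+1}`-equivalence, Goussarov and Habiro; number one is the Torelli group itself). -/
def Near (n : ℕ) (P M : Heegaard) : Prop :=
  P.2 ∈ Torelli P.1 ∧ ∃ φ τ : MulAut (Surf M.1), φ ∈ Torelli M.1 ∧ Homeo P ⟨M.1, φ⟩ ∧
    τ ∈ (Torelli M.1).lowerCentralSeries n ∧ M.2 = φ * τ

theorem near_torelli {n : ℕ} {P M : Heegaard} (h : Near n P M) : M.2 ∈ Torelli M.1 := by
  obtain ⟨-, φ, τ, h1, -, h2, h3⟩ := h
  rw [h3]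
  exact mul_mem h1 (Subgroup.lowerCentralSeries_antitone _ (Nat.zero_le n) h2)

/-- quotients of the fundamental group of a homology sphere are finitely generated and perfect -/
theorem quotient_perfect {M : Heegaard} (hM : M.2 ∈ Torelli M.1) {Q : Type} [Group Q]
    {f : Pi1 M →* Q} (hf : Surjective f) : Group.FG Q ∧ commutator Q = ⊤ := by
  have hmk : Surjective (QuotientGroup.mk' (Subgroup.normalClosure (rels M))) :=
    QuotientGroup.mk'_surjective _
  have hs : Surjective (f.comp (QuotientGroup.mk' (Subgroup.normalClosure (rels M)))) :=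
    hf.comp hmk
  refine ⟨Group.fg_of_surjective hs, ?_⟩
  set α : Surf M.1 →* Abelianization Q :=
    Abelianization.of.comp (f.comp (QuotientGroup.mk' (Subgroup.normalClosure (rels M)))) with hα
  have k1 : ∀ i, α (xx i) = 1 := by
    intro i
    have : ((xx i : Surf M.1) : Pi1 M) = 1 := by
      rw [QuotientGroup.eq_one_iff]
      exact Subgroup.subset_normalClosure (Or.inl ⟨i, rfl⟩)
    show Abelianization.of (f ((xx i : Surf M.1) : Pi1 M)) = 1
    rw [this, map_one, map_one]
  have k2 : ∀ i, α (yy i) = 1 := by
    intro i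
    have h1 : ((M.2 (yy i) : Surf M.1) : Pi1 M) = 1 := by
      rw [QuotientGroup.eq_one_iff]
      exact Subgroup.subset_normalClosure (Or.inr ⟨i, rfl⟩)
    have h2 : α (M.2 (yy i)) = 1 := by
      show Abelianization.of (f ((M.2 (yy i) : Surf M.1) : Pi1 M)) = 1
      rw [h1, map_one, map_one]
    have h3 := Abelianization.commutator_subset_ker α (hM.2 (yy i))
    rw [MonoidHom.mem_ker, map_mul, map_inv, mul_inv_eq_one, h2] at h3
    exact h3.symm
  have h1 : α = 1 := hom_ext (fun i => by rw [k1]; rfl) fun i => by rw [k2]; rfl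
  rw [eq_top_iff, ← Abelianization.ker_of]
  intro q _
  obtain ⟨z, rfl⟩ := hs q
  exact DFunLike.congr_fun h1 z

theorem commwidth_pi {Q : Type} [Group Q] {k r : ℕ} (h : ∀ q : Q, ProdComm r q)
    (κ : Fin k → Q) : ProdComm r κ := by
  choose a b hab using h
  refine ⟨fun i j => a (κ j) i, fun i j => b (κ j) i, ?_⟩
  funext j
  have e : ∀ l : List (Fin k → Q), l.prod j = (l.map fun x => x j).prod := fun l => by
    induction l with
    | nil => rfl
    | cons x l ih => rw [List.prod_cons, List.map_cons, List.prod_cons, ← ih]; rfl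
  rw [e, List.map_ofFn]
  exact hab (κ j)

/-- The fundamental group of `M` has an epimorphism onto `Q`. -/
def Epi (M : Heegaard) (Q : Type) [Group Q] : Prop := ∃ f : Pi1 M →* Q, Surjective f

/-- `Q` is generated by `k` elements. -/
def GenBy (Q : Type) [Group Q] (k : ℕ) : Prop := ∃ d : Fin k → Q, Subgroup.closure (Set.range d) = ⊤

/-- There is a finite set `S` of mapping classes of the surface of genus `g + 2 k`, `g` the genus of the given
Heegaard splitting of `P`, such that for all `n` there is a product of at most `b n` elements of `S` which is the gluing map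
of a homology sphere `M` with `Near n P M`, whose fundamental group has an epimorphism onto `Q`. -/
def Realised (Q : Type) [Group Q] (k : ℕ) (P : Heegaard) (b : ℕ → ℝ) : Prop :=
  ∃ S : Finset (MulAut (Surf (P.1 + (k + k)))), (∀ s ∈ S, s ∈ Pool.Agent.N518.TG.Mod _) ∧
    ∀ n : ℕ, ∃ l : List (MulAut (Surf (P.1 + (k + k)))), (∀ s ∈ l, s ∈ S) ∧
      (l.length : ℝ) ≤ b n ∧ Near n P ⟨_, l.prod⟩ ∧ Epi ⟨_, l.prod⟩ Q

/-- **Perfect quotients of the fundamental group are invisible for finite type invariants of bounded
degree.**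

(1) The fundamental group `Pi1` is an invariant of the manifolds.

(2) Invariants of degree at most `n` do not distinguish `P` and `M` if `Near n P M`.

(3) Let `Q` be a group, `P` a homology sphere and `n` a number. There is a homology sphere `M` with `Near n P M`
whose fundamental group has an epimorphism onto `Q` if and only if `Q` is finitely generated and perfect.

(4) In particular, for all homology spheres `N`, `P` and all `n` there are a homology sphere `M` with `Near n P M`
and an epimorphism of the fundamental group of `M` onto the one of `N`.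

(5) The manifolds are not complicated: if the perfect group `Q` is generated by `k` elements and `P` has a Heegaard
splitting of genus `g`, then there are a finite set `S` of mapping classes of the surface of genus `g + 2 k` and a
number `C` such that for all `n` the manifold `M = M(s_1 ⋯ s_L)` in (3) can be obtained with `s_i ∈ S` and
`L ≤ C (n + 1) ^ C`.

(6) If, moreover, `Q` is finite and every element of `Q` is a product of `r ≥ 1` commutators, then
`L ≤ C (n + 1) ^ (2 + log_2 r)`. So `L ≤ C (n + 1) ^ 2` if every element is a commutator (`r = 1`), which is the case for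
all finite non-abelian simple groups (theorem of Liebeck, O'Brien, Shalev and Tiep); these can be
generated by `k = 2` elements. -/
theorem result :
    (∀ P P' : Heegaard, Homeo P P' → Nonempty (Pi1 P ≃* Pi1 P')) ∧
    (∀ (n : ℕ) (P M : Heegaard), Near n P M → ∀ (A : Type) [AddCommGroup A] (v : Heegaard → A),
      IsInvariant v → FiniteType n v → v M = v P) ∧
    (∀ (Q : Type) [Group Q] (P : Heegaard), P.2 ∈ Torelli P.1 → ∀ n : ℕ,
      ((∃ M, Near n P M ∧ Epi M Q) ↔ Group.FG Q ∧ commutator Q = ⊤)) ∧
    (∀ N P : Heegaard, N.2 ∈ Torelli N.1 → P.2 ∈ Torelli P.1 → ∀ n : ℕ,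
      ∃ M, Near n P M ∧ Epi M (Pi1 N)) ∧
    (∀ (Q : Type) [Group Q] (k : ℕ) (P : Heegaard), commutator Q = ⊤ → GenBy Q k →
      P.2 ∈ Torelli P.1 → ∃ C : ℝ, Realised Q k P fun n => C * ((n : ℝ) + 1) ^ C) ∧
    (∀ (Q : Type) [Group Q] (k : ℕ) (P : Heegaard) (r : ℕ), Finite Q → 1 ≤ r →
      (∀ q : Q, ProdComm r q) → GenBy Q k → P.2 ∈ Torelli P.1 →
      ∃ C : ℝ, Realised Q k P fun n => C * ((n : ℝ) + 1) ^ (2 + Real.logb 2 r)) := by
  classical
  have p5 : ∀ (Q : Type) [Group Q] (k : ℕ) (P : Heegaard), commutator Q = ⊤ → GenBy Q k →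
      P.2 ∈ Torelli P.1 → ∃ C : ℝ, Realised Q k P fun n => C * ((n : ℝ) + 1) ^ C := by
    rintro Q _ k P hQ ⟨d, hd⟩ hP
    obtain ⟨φ, a, PP, hφ, hφH, ha, hPP, hf⟩ := exists_constr hQ d hd P hP
    have hfg : Group.FG (Fin k → Q) := by
      have : Group.FG Q := Group.fg_iff.2 ⟨_, hd, Set.finite_range d⟩
      infer_instance
    obtain ⟨S, C, hS, hS'⟩ := exists_deep hPP (comm_pi hQ) d
    refine ⟨((C + 3 : ℕ) : ℝ), S ∪ {φ, a, a⁻¹}, fun s hs => ?_, fun n => ?_⟩
    · rw [Finset.mem_union] at hs
      rcases hs with hs | hs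
      · exact (hS s hs).1
      · simp only [Finset.mem_insert, Finset.mem_singleton] at hs
        rcases hs with rfl | rfl | rfl
        · exact hφ.1
        · exact ha
        · exact inv_mem ha
    · obtain ⟨l, h1, h2, h3, h4⟩ := hS' n
      have e : (φ :: a :: (l ++ [a⁻¹])).prod = φ * (a * l.prod * a⁻¹) := by
        rw [List.prod_cons, List.prod_cons, List.prod_append, List.prod_singleton, mul_assoc a]
      refine ⟨φ :: a :: (l ++ [a⁻¹]), ?_, ?_, ?_, ?_⟩
      · intro s hs
        rw [Finset.mem_union]
        simp only [List.mem_cons, List.mem_append, List.not_mem_nil, or_false] at hs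
        simp only [Finset.mem_insert, Finset.mem_singleton]
        rcases hs with rfl | rfl | hs | rfl
        · exact Or.inr (Or.inl rfl)
        · exact Or.inr (Or.inr (Or.inl rfl))
        · exact Or.inl (h1 s hs)
        · exact Or.inr (Or.inr (Or.inr rfl))
      · rw [List.length_cons, List.length_cons, List.length_append, List.length_singleton]
        have h5 : 1 ≤ (n + 1) ^ C := Nat.one_le_pow _ _ (by omega)
        have h6 : l.length + 1 + 1 + 1 ≤ (C + 3) * (n + 1) ^ (C + 3) := by
          calc l.length + 1 + 1 + 1 ≤ C * (n + 1) ^ C + 3 * (n + 1) ^ C := by omega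
            _ = (C + 3) * (n + 1) ^ C := by ring
            _ ≤ (C + 3) * (n + 1) ^ (C + 3) :=
                Nat.mul_le_mul_left _ (Nat.pow_le_pow_right (by omega) (by omega))
        show ((l.length + 1 + 1 + 1 : ℕ) : ℝ) ≤ ((C + 3 : ℕ) : ℝ) * ((n : ℝ) + 1) ^ ((C + 3 : ℕ) : ℝ)
        rw [Real.rpow_natCast]
        exact_mod_cast h6
      · rw [e]
        exact ⟨hP, φ, a * l.prod * a⁻¹, hφ, hφH, conj_lcs ha h3, rfl⟩
      · rw [e]
        exact hf _ h4
  have p3 : ∀ (Q : Type) [Group Q] (P : Heegaard), P.2 ∈ Torelli P.1 → ∀ n : ℕ,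
      ((∃ M, Near n P M ∧ Epi M Q) ↔ Group.FG Q ∧ commutator Q = ⊤) := by
    intro Q _ P hP n
    constructor
    · rintro ⟨M, hM, f, hf⟩
      exact quotient_perfect (near_torelli hM) hf
    · rintro ⟨h1, h2⟩
      obtain ⟨k, D, hk, hD⟩ := Group.fg_iff'.1 h1
      obtain ⟨C, S, -, h⟩ := p5 Q k P h2 ⟨fun i => (D.equivFin.symm (Fin.cast hk.symm i) : Q), (by
        rw [← hD]
        congr 1
        ext q
        constructor
        · rintro ⟨i, rfl⟩
          exact (D.equivFin.symm (Fin.cast hk.symm i)).2
        · intro hq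
          exact ⟨Fin.cast hk (D.equivFin ⟨q, hq⟩), by simp⟩)⟩ hP
      obtain ⟨l, -, -, h3, h4⟩ := h n
      exact ⟨_, h3, h4⟩
  refine ⟨fun P P' h => pi1_homeo h, ?_, p3, ?_, p5, ?_⟩
  · rintro n P ⟨g, ψ⟩ ⟨hP, φ, τ, h1, h2, h3, h4⟩ A _ v hv hn
    have e : v ⟨g, ψ⟩ = v ⟨g, φ * τ⟩ := congrArg (fun x : MulAut (Surf g) => v ⟨g, x⟩) h4
    rw [e, hv P ⟨g, φ⟩ hP h2]
    exact ft_eq hn h1 h3
  · intro N P hN hP n
    refine (p3 (Pi1 N) P hP n).2 (quotient_perfect (M := N) hN (f := MonoidHom.id _) ?_)
    exact fun x => ⟨x, rfl⟩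
  · rintro Q _ k P r hfin hr hw ⟨d, hd⟩ hP
    have hQ : commutator Q = ⊤ := by
      rw [eq_top_iff]
      intro q _
      obtain ⟨a, b, rfl⟩ := hw q
      refine Subgroup.list_prod_mem _ fun x hx => ?_
      obtain ⟨i, rfl⟩ := (List.mem_ofFn' _ _).1 hx
      exact Subgroup.commutator_mem_commutator (Subgroup.mem_top _) (Subgroup.mem_top _)
    obtain ⟨φ, a, PP, hφ, hφH, ha, hPP, hf⟩ := exists_constr hQ d hd P hP
    obtain ⟨S, hS, hS'⟩ := exists_deep_width hPP hr (fun κ => commwidth_pi hw κ) d
    refine ⟨4 * r + 3, S ∪ {φ, a, a⁻¹}, fun s hs => ?_, fun n => ?_⟩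
    · rw [Finset.mem_union] at hs
      rcases hs with hs | hs
      · exact (hS s hs).1
      · simp only [Finset.mem_insert, Finset.mem_singleton] at hs
        rcases hs with rfl | rfl | rfl
        · exact hφ.1
        · exact ha
        · exact inv_mem ha
    · obtain ⟨l, h1, h2, h3, h4⟩ := hS' n
      have e : (φ :: a :: (l ++ [a⁻¹])).prod = φ * (a * l.prod * a⁻¹) := by
        rw [List.prod_cons, List.prod_cons, List.prod_append, List.prod_singleton, mul_assoc a]
      refine ⟨φ :: a :: (l ++ [a⁻¹]), ?_, ?_, ?_, ?_⟩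
      · intro s hs
        rw [Finset.mem_union]
        simp only [List.mem_cons, List.mem_append, List.not_mem_nil, or_false] at hs
        simp only [Finset.mem_insert, Finset.mem_singleton]
        rcases hs with rfl | rfl | hs | rfl
        · exact Or.inr (Or.inl rfl)
        · exact Or.inr (Or.inr (Or.inl rfl))
        · exact Or.inl (h1 s hs)
        · exact Or.inr (Or.inr (Or.inr rfl))
      · rw [List.length_cons, List.length_cons, List.length_append, List.length_singleton]
        push_cast
        have h5 : (1 : ℝ) ≤ ((n : ℝ) + 1) ^ (2 + Real.logb 2 r) := by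
          refine Real.one_le_rpow (by linarith [(Nat.cast_nonneg n : (0 : ℝ) ≤ n)]) ?_
          have : 0 ≤ Real.logb 2 (r : ℝ) := Real.logb_nonneg (by norm_num) (by exact_mod_cast hr)
          linarith
        linarith
      · rw [e]
        exact ⟨hP, φ, a * l.prod * a⁻¹, hφ, hφH, conj_lcs ha h3, rfl⟩
      · rw [e]
        exact hf _ h4

end Pool.Agent.Results.MP_27a3bb_gt.PerfectQuotients
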