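import Pool.Agent.N518.TG.Main

/-!
# One finite type invariant for families of homology spheres

Definitions (`Pool.Agent.N518.TG.Defs`; `Σ_{g,1}` is the compact oriented surface of genus `g` with one
boundary component):

* `Surf g`: its fundamental group, free on `x_i`, `y_i`, `i < g`; `bdry g = [x_0, y_0] ⋯ [x_{g-1}, y_{g-1}]`;
  `Mod g`: the mapping class group (automorphisms of `Surf g` which fix `bdry g`); `Torelli g`: the mapping
  classes which act trivially on the homology;
* `Heegaard`: pairs `⟨g, φ⟩`, which stand for the 3-manifold `M(φ)` which is the union of the handlebody in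
  which the curves `x_i` bound discs and of the handlebody in which the curves `φ(y_i)` bound discs;
  `Homeo`: the equivalence relation generated by `φ ↦ a φ b`, `a` and `b` mapping classes which extend to
  the handlebodies for the curves `x_i` (`y_i`), and by stabilisation (by Reidemeister and Singer: the
  manifolds are homeomorphic, preserving the orientations); every integral homology sphere is `M(φ)` for
  some `φ` in a Torelli group;
* `IsInvariant v`: `v` is an invariant of integral homology spheres; `FiniteType n v`: it is of finite type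
  of degree at most `n`, that is, all its alternating sums over `M(φ ψ_{i_1} ⋯ ψ_{i_r})`, `{i_1 < ⋯ < i_r}`
  running through the subsets of `{0, …, n}`, are zero, `φ`, `ψ_0, …, ψ_n` in a Torelli group;
* `Family`: the data of a family `F.M q = M(u₀ w₁^{q₁} u₁ ⋯ w_k^{q_k} u_k)`, `q ∈ ℤ^k`, with `w_j` in the
  Torelli group, `u_j` in the mapping class group, and `u₀ u₁ ⋯ u_k` in the Torelli group.

`Pool.Agent.N518.VL.One`: `TorsionFree A`.

By Le (and Garoufalidis and Levine, Habiro) the LMO invariants of two integral homology spheres are equal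
if and only if no rational valued finite type invariant separates them; the same is then true for the
finite type invariants with values in torsion-free groups.
-/

set_option autoImplicit false

namespace Pool.Agent.Results.MP_27a3bb_gt.PowersInTorelliGroups

open Pool.Agent.N518.TG Pool.Agent.N518.VL

open Finset Classical in
/-- Let `S` be a finite set of families `F.M q = M(u₀ w₁^{q₁} u₁ ⋯ w_k^{q_k} u_k)`, `q ∈ ℤ^k`, of integral homology
3-spheres (`w_j` in the Torelli group, `u_j` in the mapping class group; the genus and `k` may be different for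
the different families). There are a number `d` and **one** real valued finite type invariant `V` of degree at
most `d` of integral homology spheres, such that for all `F` and `F'` in `S`:

* **`V` decides**: `V(F.M q) = V(F'.M q')` if and only if no finite type invariant of any degree with values in
  any torsion-free abelian group separates the two homology spheres (that is, their LMO invariants are
  equal);
* the pairs `(q, q')` with `V(F.M q) = V(F'.M q')` are the integral zeros of one polynomial with rational
  coefficients;
* for any two arithmetic progressions `a + t b`, `a' + t b'`, `t ∈ ℤ`, of exponents, either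
  `V(F.M(a + t b)) = V(F'.M(a' + t b'))` for all `t`, or this is true for at most `d` integers `t`;
* either `V(F.M q) = V(F'.M q')` for all `q` and `q'`, or, for all finite sets of integers `A_1, …, A_k`,
  `B_1, …, B_{k'}` with at least `M` elements, at most `d/M` of the pairs with `q ∈ ∏ A_i` and `q' ∈ ∏ B_i` have this
  property. -/
theorem result (S : Set Family) (hS : S.Finite) : 
    (∀ F ∈ S, ∀ q, (F.M q).2 ∈ Torelli (F.M q).1) ∧
    ∃ (d : ℕ) (V : Heegaard → ℝ), IsInvariant V ∧ FiniteType d V ∧
    ∀ F ∈ S, ∀ F' ∈ S,
      (∀ q q', V (F.M q) = V (F'.M q') ↔ ∀ (A : Type) [AddCommGroup A], TorsionFree A →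
        ∀ (n : ℕ) (v : Heegaard → A), IsInvariant v → FiniteType n v → v (F.M q) = v (F'.M q')) ∧
      (∃ P : MvPolynomial (Fin F.k ⊕ Fin F'.k) ℚ, ∀ q q', V (F.M q) = V (F'.M q') ↔
        MvPolynomial.eval (Sum.elim (fun i => (q i : ℚ)) fun i => (q' i : ℚ)) P = 0) ∧
      (∀ (a b : Fin F.k → ℤ) (a' b' : Fin F'.k → ℤ),
        (∀ t : ℤ, V (F.M (a + t • b)) = V (F'.M (a' + t • b'))) ∨
        ({t : ℤ | V (F.M (a + t • b)) = V (F'.M (a' + t • b'))}.Finite ∧
          {t : ℤ | V (F.M (a + t • b)) = V (F'.M (a' + t • b'))}.ncard ≤ d)) ∧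
      ((∀ q q', V (F.M q) = V (F'.M q')) ∨
        ∀ (A : Fin F.k → Finset ℤ) (B : Fin F'.k → Finset ℤ) (M : ℕ), (∀ i, M ≤ (A i).card) →
          (∀ i, M ≤ (B i).card) →
          M * #{z ∈ Fintype.piFinset A ×ˢ Fintype.piFinset B | V (F.M z.1) = V (F'.M z.2)} ≤
            d * ((∏ i, (A i).card) * ∏ i, (B i).card)) := by
  refine ⟨fun F _ q => ?_, ?_⟩
  · unfold Family.M
    rw [member_coe F.u₀_mem F.w_mem F.u_mem]
    exact member_mem F.u₀_mem F.w_mem F.u_mem F.base q
  have : Finite S := hS.to_subtype
  obtain ⟨d, V, h1, h2, h3, h4, h5⟩ := one_inv LMO (ι := S) (fun F => F.1.k) (fun F => F.1.M)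
    (fun F => fam_powers F.1.u₀_mem F.1.w_mem F.1.u_mem F.1.base)
  refine ⟨d, V, h1.1, h1.2, fun F hF F' hF' => ⟨fun q q' => ?_, ?_, ?_, ?_⟩⟩
  · rw [h2 ⟨F, hF⟩ ⟨F', hF'⟩ q q']
    constructor
    · intro h A _ hA n v hv hn
      exact h A hA n v ⟨hv, hn⟩
    · intro h A _ hA n v hv
      exact h A hA n v hv.1 hv.2
  · exact h3 ⟨F, hF⟩ ⟨F', hF'⟩
  · exact h4 ⟨F, hF⟩ ⟨F', hF'⟩
  · rcases h5 ⟨F, hF⟩ ⟨F', hF'⟩ with h | h
    · exact Or.inl h
    · right
      intro A B M hA hB
      convert h A B M hA hB

end Pool.Agent.Results.MP_27a3bb_gt.PowersInTorelliGroups
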