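import Pool.Agent.N518.TG.Walk

/-!
# Finite type invariants of random homology spheres

Definitions (`Pool.Agent.N518.TG.Defs`; `Σ_{g,1}` is the compact oriented surface of genus `g` with one
boundary component):

* `Surf g`: its fundamental group, free on `x_i`, `y_i`, `i < g`; `bdry g = [x_0, y_0] ⋯ [x_{g-1}, y_{g-1}]`;
  `Mod g`: the mapping class group (automorphisms of `Surf g` which fix `bdry g`); `Torelli g`: the mapping
  classes which act trivially on the homology;
* `Heegaard`: pairs `⟨g, φ⟩`, which stand for the 3-manifold `M(φ)` which is the union of the handlebody in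
  which the curves `x_i` bound discs and of the handlebody in which the curves `φ(y_i)` bound discs;
  `Homeo`: the equivalence relation generated by `φ ↦ a φ b`, `a` and `b` mapping classes which extend to
  the handlebodies for the curves `x_i` (`y_i`), and by stabilisation (by Reidemeister and Singer: the
  manifolds are homeomorphic, preserving the orientations); every integral homology sphere is `M(φ)` for
  some `φ` in a Torelli group;
* `IsInvariant v`: `v` is an invariant of integral homology spheres; `FiniteType n v`: it is of finite type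
  of degree at most `n`, that is, all its alternating sums over `M(φ ψ_{i_1} ⋯ ψ_{i_r})`, `{i_1 < ⋯ < i_r}`
  running through the subsets of `{0, …, n}`, are zero, `φ`, `ψ_0, …, ψ_n` in a Torelli group.

`Pool.Agent.N518.TG.Walk`: `walk φ x w = M(φ x_{w_1} ⋯ x_{w_N})` for a word `w` in the letters of an alphabet
`L` and the empty letter `none`.  `Pool.Agent.N518.VL.One`: `TorsionFree A`.
-/

set_option autoImplicit false

namespace Pool.Agent.Results.MP_27a3bb_gt.RandomHomologySpheres

open Pool.Agent.N518.TG Pool.Agent.N518.VL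

/-- A rational valued finite type invariant of degree at most `n` has different values on the two
homology spheres (their LMO invariants are different up to degree `n`). -/
def Separated (n : ℕ) (P Q : Heegaard) : Prop :=
  ∃ v : Heegaard → ℚ, IsInvariant v ∧ FiniteType n v ∧ v P ≠ v Q

theorem sep_iff {n : ℕ} {P Q : Heegaard} : Sep LMO n P Q ↔ Separated n P Q :=
  ⟨fun ⟨v, h, hne⟩ => ⟨v, h.1, h.2, hne⟩, fun ⟨v, h1, h2, hne⟩ => ⟨v, ⟨h1, h2⟩, hne⟩⟩

open Finset Classical in
/-- Let `x s`, `s ∈ L`, be `r` elements of the Torelli group of genus `g`, and `φ` another one.  For a word `w` of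
length `N` in `L ∪ {∅}` let `M(w) = M(φ x_{w_1} ⋯ x_{w_N})`, an integral homology sphere.  Let `M'(w')` be given in
the same way by `r'` elements of the Torelli group of genus `g'`.  The words are chosen at random, all
`(r + 1)^N` words of length `N` being equally likely.

* **anti-concentration**: if a finite type invariant `v` of degree at most `n` with values in a torsion-free
  group is not constant on the `M(w)` (all words of all lengths), then each value is taken with
  probability at most `3 ((r + 1)/(N + 1))^(1/2^n)` on the random `M(w)`, `w` of length `N`;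
* **zero-one law for pairs**: if one pair `M(w)`, `M'(w')` is separated by rational finite type invariants of
  degree at most `n`, then two random ones, of lengths `N` and `N'`, are separated by such invariants with
  probability at least `1 - 3 ((r + 1)/(N + 1))^(1/2^n) - 3 ((r' + 1)/(N' + 1))^(1/2^n)`;
* **zero-one law for a fixed homology sphere** `P` (for example the 3-sphere): if one `M(w)` is separated from
  `P` by rational finite type invariants of degree at most `n`, then so is a random one with probability at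
  least `1 - 3 ((r + 1)/(N + 1))^(1/2^n)`;
* **rigidity**: if, for some `δ > 0` and infinitely many `N`, a proportion of at least `δ` of the `M(w)`, `w` of
  length `N`, is not separated from `P` by rational finite type invariants (has the same LMO invariant; for
  instance, is homeomorphic to `P`), then no `M(w)` is separated from `P`;
* **finite test**: a finite type invariant of degree at most `n` with values in any abelian group which does
  not separate the `M(w)` from the `M'(w')` for the words of length at most `n` does not separate any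
  `M(w)` from any `M'(w')`. -/
theorem result {L L' : Type} [Fintype L] [Fintype L'] (g g' : ℕ)
    (φ : MulAut (Surf g)) (x : L → MulAut (Surf g)) (hφ : φ ∈ Torelli g)
    (hx : ∀ s, x s ∈ Torelli g)
    (φ' : MulAut (Surf g')) (x' : L' → MulAut (Surf g')) (hφ' : φ' ∈ Torelli g')
    (hx' : ∀ s, x' s ∈ Torelli g') :
    (∀ (N : ℕ) (w : Fin N → Option L), (walk φ x w).2 ∈ Torelli (walk φ x w).1) ∧
    (∀ (A : Type) [AddCommGroup A], TorsionFree A →
      ∀ (n : ℕ) (v : Heegaard → A), IsInvariant v → FiniteType n v →
      (∃ (N₀ N₁ : ℕ) (w₀ : Fin N₀ → Option L) (w₁ : Fin N₁ → Option L),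
        v (walk φ x w₀) ≠ v (walk φ x w₁)) →
      ∀ (N : ℕ) (c : A), (#{w : Fin N → Option L | v (walk φ x w) = c} : ℝ) ≤
        3 * (((Fintype.card L : ℝ) + 1) / (N + 1)) ^ ((1 / 2 : ℝ) ^ n) *
          ((Fintype.card L : ℝ) + 1) ^ N) ∧
    (∀ n : ℕ, (∃ (N₀ N₀' : ℕ) (w₀ : Fin N₀ → Option L) (w₀' : Fin N₀' → Option L'),
        Separated n (walk φ x w₀) (walk φ' x' w₀')) →
      ∀ N N' : ℕ, (#{z : (Fin N → Option L) × (Fin N' → Option L') |
          ¬ Separated n (walk φ x z.1) (walk φ' x' z.2)} : ℝ) ≤
        (3 * (((Fintype.card L : ℝ) + 1) / (N + 1)) ^ ((1 / 2 : ℝ) ^ n) +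
          3 * (((Fintype.card L' : ℝ) + 1) / (N' + 1)) ^ ((1 / 2 : ℝ) ^ n)) *
          (((Fintype.card L : ℝ) + 1) ^ N * ((Fintype.card L' : ℝ) + 1) ^ N')) ∧
    (∀ (P : Heegaard) (n : ℕ), (∃ (N₀ : ℕ) (w₀ : Fin N₀ → Option L),
        Separated n (walk φ x w₀) P) →
      ∀ N : ℕ, (#{w : Fin N → Option L | ¬ Separated n (walk φ x w) P} : ℝ) ≤
        3 * (((Fintype.card L : ℝ) + 1) / (N + 1)) ^ ((1 / 2 : ℝ) ^ n) *
          ((Fintype.card L : ℝ) + 1) ^ N) ∧
    (∀ P : Heegaard, (∃ δ : ℝ, 0 < δ ∧ ∀ N₀ : ℕ, ∃ N ≥ N₀,
        δ * ((Fintype.card L : ℝ) + 1) ^ N ≤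
          #{w : Fin N → Option L | ∀ n, ¬ Separated n (walk φ x w) P}) →
      ∀ (N : ℕ) (w : Fin N → Option L) (n : ℕ), ¬ Separated n (walk φ x w) P) ∧
    (∀ (A : Type) [AddCommGroup A] (n : ℕ) (v : Heegaard → A), IsInvariant v → FiniteType n v →
      (∀ (w : Fin n → Option L) (w' : Fin n → Option L'), v (walk φ x w) = v (walk φ' x' w')) →
      ∀ (N N' : ℕ) (w : Fin N → Option L) (w' : Fin N' → Option L'),
        v (walk φ x w) = v (walk φ' x' w')) := by
  have hD : WFam LMO (wd hφ hx) := wfam_wd hφ hx
  have hD' : WFam LMO (wd hφ' hx') := wfam_wd hφ' hx'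
  have e1 : ((Fintype.card (Option L) : ℕ) : ℝ) = (Fintype.card L : ℝ) + 1 := by
    rw [Fintype.card_option]; push_cast; rfl
  have e1' : ((Fintype.card (Option L') : ℕ) : ℝ) = (Fintype.card L' : ℝ) + 1 := by
    rw [Fintype.card_option]; push_cast; rfl
  simp only [walk_eq hφ hx, walk_eq hφ' hx', ← sep_iff]
  refine ⟨fun N w => ?_, ?_, ?_, ?_, ?_, ?_⟩
  · rw [walk_eq hφ hx w]
    exact mul_mem (show (⟨φ, hφ.1⟩ : Mod g) ∈ TT g from hφ) (hom_mem hx _)
  · rintro A _ htf n v hv hn ⟨N₀, N₁, w₀, w₁, hne⟩ N c
    have := value hD htf (v := v) ⟨hv, hn⟩ hne N c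
    unfold Pool.Agent.Y466.RW.bb at this
    rw [e1] at this
    convert this
  · rintro n ⟨N₀, N₀', w₀, w₀', hs⟩ N N'
    have := pair_count hD hD' hs N N'
    unfold Pool.Agent.Y466.RW.bb at this
    rw [e1, e1'] at this
    convert this
  · rintro P n ⟨N₀, w₀, hs⟩ N
    have := one_count hD hs N
    unfold Pool.Agent.Y466.RW.bb at this
    rw [e1] at this
    convert this
  · rintro P ⟨δ, hδ, h⟩ N w n
    refine rigid hD ⟨δ, hδ, fun N₀ => ?_⟩ _ n
    obtain ⟨N, hN, hc⟩ := h N₀
    refine ⟨N, hN, ?_⟩
    rw [e1]
    convert hc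
  · intro A _ n v hv hn ht N N' w w'
    exact test_pair hD hD' (v := v) ⟨hv, hn⟩ ht _ _

end Pool.Agent.Results.MP_27a3bb_gt.RandomHomologySpheres
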